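import Mathlib
import Pool.Agent.H524R3.ExpDefs
import Pool.Agent.W719.AEC.Defs
import Pool.Agent.Y397.PG.Defs
import Pool.Agent.Y397.PG.Main
import Pool.Agent.Y397.PG.Theta

/-!
# The asymptotic expansion conjecture of Q1 fails for every group SU(N)

The starting result `LogGrowth` treats G = SU(2) and one manifold.  Here: for every N ≥ 2 a criterion for
the failure of the expansion of Q1 for G = SU(N) on a large class of graph manifolds (two different optimal
packings of the plumbing graph), with the growth exponents, and an infinite family of graph manifolds which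
are counterexamples for all groups SU(N) at the same time.
-/

set_option autoImplicit false

open W719AEC Pool.Agent.Y397.PG Filter Topology Finset

namespace Pool.Agent.Results.MP_fcdc94_gt.PackingCriterionSUN

/-- The sequence Z (a function of r = k + h) has the asymptotic expansion of Q1 with the phases c 0, ..., c m:
there are rational d_j, rational I_j, positive v_j and complex a_{j,e} (e ≥ 1) such that for every E there are
C_E and r_E such that for all r ≥ r_E the distance of Z r to the sum over j of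
v_j * exp (2 π i (r c_j + I_j / 8)) * r ^ d_j * (1 + ∑_{e=1}^E a_{j,e} r ^ (-e))
is at most C_E * r ^ (max_j d_j - E - 1).  (In Q1 the estimate is asked for all r ≥ 2; so `¬ HasExpansion` is
at least as strong as the failure of Q1's expansion.) -/
def HasExpansion (Z : ℕ → ℂ) (m : ℕ) (c : Fin (m + 1) → ℝ) : Prop :=
  ∃ (d I : Fin (m + 1) → ℚ) (v : Fin (m + 1) → ℝ) (a : Fin (m + 1) → ℕ → ℂ), (∀ j, 0 < v j) ∧
    ∀ E : ℕ, ∃ (C : ℝ) (r₀ : ℕ), ∀ r : ℕ, r₀ ≤ r →
      ‖Z r - ∑ j, (v j : ℂ) * Complex.exp (2 * Real.pi * Complex.I * (r * (c j : ℂ) + (I j : ℂ) / 8)) *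
          (((r : ℝ) ^ (d j : ℝ) : ℝ) : ℂ) * (1 + ∑ e ∈ Finset.Icc 1 E, a j e * ((r : ℂ) ^ e)⁻¹)‖ ≤
        C * (r : ℝ) ^ (((Finset.univ.sup' Finset.univ_nonempty d : ℚ) : ℝ) - E - 1)

lemma sum_even (L : ℕ) (f : ℕ → ℂ) :
    ∑ l ∈ Icc 1 L, (if Even l then f (l / 2) else 0) = ∑ e ∈ Icc 1 (L / 2), f e := by
  rw [← Finset.sum_filter]
  symm
  refine Finset.sum_bij' (fun e _ => 2 * e) (fun l _ => l / 2) ?_ ?_ ?_ ?_ ?_
  · intro e he
    simp only [Finset.mem_Icc, Finset.mem_filter] at he ⊢
    exact ⟨by omega, even_two_mul e⟩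
  · intro l hl
    simp only [Finset.mem_Icc, Finset.mem_filter] at hl ⊢
    obtain ⟨t, ht⟩ := hl.2
    omega
  · intro e _
    simp
  · intro l hl
    simp only [Finset.mem_Icc, Finset.mem_filter] at hl
    exact Nat.two_mul_div_two_of_even hl.2
  · intro e _
    simp

lemma to_half {N : ℕ} {Z : ℕ → ℂ} {m : ℕ} {c : Fin (m + 1) → ℝ} (h : HasExpansion Z m c) :
    H524R3.HasExpansion N (fun k => Z (k + N)) := by
  obtain ⟨d, I, v, a, hv, h⟩ := h
  refine ⟨m, c, fun j => (d j : ℝ), fun j => (v j : ℂ) * Complex.exp (2 * Real.pi * Complex.I *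
    ((I j : ℂ) / 8)), fun j l => if Even l then a j (l / 2) else 0, fun L => ?_⟩
  obtain ⟨C, r₀, hC⟩ := h (L / 2)
  have hsup : univ.sup' univ_nonempty (fun j => (d j : ℝ)) =
      ((univ.sup' univ_nonempty d : ℚ) : ℝ) := by
    have h1 := Finset.comp_sup'_eq_sup'_comp (univ_nonempty (α := Fin (m + 1))) (f := d)
      (fun q : ℚ => (q : ℝ)) (fun x y => Rat.cast_max x y)
    exact h1.symm
  refine ⟨|C|, r₀ + 1, fun k hk => ?_⟩
  have hr1 : 1 ≤ k + N := by omega
  have hr : (0 : ℝ) < ((k + N : ℕ) : ℝ) := by exact_mod_cast hr1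
  have hr1' : (1 : ℝ) ≤ ((k + N : ℕ) : ℝ) := by exact_mod_cast hr1
  have h2 := hC (k + N) (by omega)
  have hterm : ∀ j : Fin (m + 1), Complex.exp (2 * Real.pi * Complex.I * ((k + N : ℕ) * (c j : ℂ))) *
          ((((k + N : ℕ) : ℝ) ^ (d j : ℝ) : ℝ) : ℂ) * ((v j : ℂ) * Complex.exp (2 * Real.pi *
            Complex.I * ((I j : ℂ) / 8))) *
            (1 + ∑ l ∈ Icc 1 L, (if Even l then a j (l / 2) else 0) *
              ((((k + N : ℕ) : ℝ) ^ (-(l : ℝ) / 2) : ℝ) : ℂ)) =
      (v j : ℂ) * Complex.exp (2 * Real.pi * Complex.I * (((k + N : ℕ) : ℂ) * (c j : ℂ) +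
        (I j : ℂ) / 8)) * ((((k + N : ℕ) : ℝ) ^ (d j : ℝ) : ℝ) : ℂ) *
        (1 + ∑ e ∈ Finset.Icc 1 (L / 2), a j e * (((k + N : ℕ) : ℂ) ^ e)⁻¹) := by
    intro j
    have e1 : ∑ l ∈ Icc 1 L, (if Even l then a j (l / 2) else 0) *
        ((((k + N : ℕ) : ℝ) ^ (-(l : ℝ) / 2) : ℝ) : ℂ) =
        ∑ e ∈ Finset.Icc 1 (L / 2), a j e * (((k + N : ℕ) : ℂ) ^ e)⁻¹ := by
      rw [← sum_even L]
      refine Finset.sum_congr rfl fun l _ => ?_
      by_cases hl : Even l
      · rw [if_pos hl, if_pos hl]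
        congr 1
        obtain ⟨t, ht⟩ := hl
        have ht2 : l / 2 = t := by omega
        have e2 : -(l : ℝ) / 2 = -(t : ℝ) := by
          rw [ht]; push_cast; ring
        rw [ht2, e2, Real.rpow_neg hr.le, Real.rpow_natCast]
        push_cast
        rfl
      · rw [if_neg hl, if_neg hl, zero_mul]
    rw [e1, mul_add (2 * (Real.pi : ℂ) * Complex.I), Complex.exp_add]
    ring
  rw [Finset.sum_congr rfl fun j _ => hterm j, hsup]
  refine h2.trans ?_
  refine (mul_le_mul_of_nonneg_right (le_abs_self C) (by positivity)).trans ?_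
  refine mul_le_mul_of_nonneg_left (Real.rpow_le_rpow_of_exponent_le hr1' ?_) (abs_nonneg C)
  have h3 : (L : ℝ) ≤ 2 * ((L / 2 : ℕ) : ℝ) + 1 := by
    have : L ≤ 2 * (L / 2) + 1 := by omega
    exact_mod_cast this
  linarith

/-- The SU(N) invariants of the graph manifold of Γ, as a function of r = k + N, satisfy
c r^E log r ≤ |Z| ≤ C r^E (1 + log r)^B for all large r, with c > 0, and have no expansion as in Q1, for any
finite list of phases, even after a multiplication with phases ω r of absolute value 1 (for example a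
change of the 2-framing). -/
def NoExpansion (N : ℕ) {n m : ℕ} (Γ : PlumbingGraph n m) (E : ℝ) : Prop :=
  (∃ (c C : ℝ) (B : ℕ), 0 < c ∧ ∀ᶠ r : ℕ in atTop,
    c * ((r : ℝ) ^ E * Real.log r) ≤ ‖Γ.Z N r‖ ∧ ‖Γ.Z N r‖ ≤ C * ((r : ℝ) ^ E * (1 + Real.log r) ^ B)) ∧
  ∀ ω : ℕ → ℂ, (∀ r, ‖ω r‖ = 1) → ∀ (l : ℕ) (c : Fin (l + 1) → ℝ),
    ¬ HasExpansion (fun r => ω r * Γ.Z N r) l c

lemma noExp_of_fails {N n m : ℕ} {Γ : PlumbingGraph n m} {E : ℝ} (h : Fails N Γ E) :
    NoExpansion N Γ E :=
  ⟨h.1, fun ω hω l c hexp => h.2 (fun k => ω (k + N)) (fun k => hω _) (to_half hexp)⟩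

/-- **The asymptotic expansion of Q1 fails for every group SU(N).**
(1) Let N ≥ 2 and let Γ be a plumbing graph (any number of vertices and edges, loops and multiple edges
allowed, pieces of any genus) with Euler numbers 0, whose edges come in pairs of opposite sign with the
same ends. If the linear programme `IsOptimal` (fractional packings of the vertices with the weights
1 - N (g_v - 1)) has two different solutions, then the quantum SU(N) invariants of the graph manifold of Γ
have no expansion as in Q1, whatever the phases are; their growth is r^E times a factor between log r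
and a power of log r, with an explicit exponent E.
(2) For every k ≥ 1 the graph manifold M_k of the graph with two vertices of genus 1, joined by k positive
and k negative edges, is a counterexample for all the groups SU(N), N ≥ 2, at the same time, with
E = (N^2 - 1) k + (N - 1). -/
theorem result :
    (∀ (N : ℕ), 2 ≤ N → ∀ (n m : ℕ) (Γ : PlumbingGraph n m), (∀ v, Γ.euler v = 0) → Doubled Γ →
      ∀ α α' : Fin n → ℝ, IsOptimal N Γ α → IsOptimal N Γ α' → α ≠ α' →
        NoExpansion N Γ (growth N Γ (weight N Γ α))) ∧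
    (∀ k : ℕ, 1 ≤ k → ∀ N : ℕ, 2 ≤ N →
      NoExpansion N (theta k) (((N : ℝ) ^ 2 - 1) * k + ((N : ℝ) - 1))) :=
  ⟨fun N hN _ _ Γ h0 hd α α' hα hα' hne =>
      noExp_of_fails (main_of_dual N hN Γ h0 hd α α' hα hα' hne),
    fun k hk N hN => noExp_of_fails (theta_fails k hk N hN)⟩

end Pool.Agent.Results.MP_fcdc94_gt.PackingCriterionSUN
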